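import Pool.Agent.Helper87.VM.Lib2

/-!
The family of curves is locally closed, and open in the space of all curves (`MP_39dd1a_ag`).
-/

set_option autoImplicit false

namespace Pool.Agent.Helper87.VM

open MvPolynomial Pool.Agent.Helper48.VMRT

/-- The condition that the value of a tuple of binary forms at a point lies in a closed set is
closed. -/
theorem hlc_closed_at {N d : ℕ} {S : Set (Fin (N + 1) → ℂ)} (hS : ZClosed S) (s t : ℂ) :
    ZClosed {c : Coef N d | pt c s t ∈ S} := by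
  have h := zclosed_preimage (κ := Fin (N + 1) × Fin (d + 1)) hS
    (fun i => ∑ j : Fin (d + 1), X (i, j) * C (s ^ (d - (j : ℕ)) * t ^ (j : ℕ)))
  have e : ∀ c : Coef N d, ev (fun i => ∑ j : Fin (d + 1),
      (X (i, j) * C (s ^ (d - (j : ℕ)) * t ^ (j : ℕ)) :
        MvPolynomial (Fin (N + 1) × Fin (d + 1)) ℂ)) c = pt c s t := by
    intro c
    funext i
    simp only [ev, pt, map_sum, map_mul, eval_X, eval_C]
    exact Finset.sum_congr rfl fun j _ => by ring
  simp only [e] at h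
  exact h

theorem hlc_closed_all {N d : ℕ} {S : Set (Fin (N + 1) → ℂ)} (hS : ZClosed S) :
    ZClosed {c : Coef N d | ∀ s t : ℂ, pt c s t ∈ S} := by
  have h : {c : Coef N d | ∀ s t : ℂ, pt c s t ∈ S} =
      ⋂ s : ℂ, ⋂ t : ℂ, {c : Coef N d | pt c s t ∈ S} := by
    ext c
    simp only [Set.mem_iInter, Set.mem_ofPred_eq]
  rw [h]
  exact zclosed_iInter fun s => zclosed_iInter fun t => hlc_closed_at hS s t

/-- Members of the family are not contained in the divisor at infinity. -/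
theorem hlc_notMem {D : VD} (hD : D.Good) {L : Submodule ℂ (Fin (D.N + 1) → ℂ)}
    (hL : D.IsBad L) {c : Coef D.N D.dg} (hc : c ∈ D.H) :
    c ∉ {c : Coef D.N D.dg | ∀ s t : ℂ, pt c s t ∈ (L : Set (Fin (D.N + 1) → ℂ))} := by
  intro hC
  obtain ⟨b, p, q, hHP, heq⟩ := hc
  have h1 : ∃ s t : ℂ, s * p none + t * q none ≠ 0 := by
    rcases hHP.ne with h | h
    · exact ⟨1, 0, by simpa using h⟩
    · exact ⟨0, 1, by simpa using h⟩
  obtain ⟨s, t, hst⟩ := h1
  have hx : (s • p + t • q) none ≠ 0 := by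
    simpa only [Pi.add_apply, Pi.smul_apply, smul_eq_mul] using hst
  have h2 : ∃ j, eval (s • p + t • q) (D.F j) ≠ 0 := by
    by_contra hn
    push Not at hn
    exact hx ((hD.fd.zero (s • p + t • q)).1 hn).1
  obtain ⟨j, hj⟩ := h2
  have h3 : D.gr (s • p + t • q) (none, j) ≠ 0 := mul_ne_zero hx hj
  have h4 : D.gr (s • p + t • q) ≠ 0 := fun e => h3 (by rw [e]; rfl)
  have h5 := hL b hHP.b_mem hHP.b_ne (D.gr (s • p + t • q)) (D.gr_mem _) h4
  have h6 : ev2 D.E b (D.gr (s • p + t • q)) ∈ L := by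
    rw [← heq s t]
    exact L.smul_mem _ (hC s t)
  exact h3 (h5.1 h6 j)

/-- The converse: a morphism of degree `dg` to `X` not contained in the divisor at infinity
belongs to the family. -/
theorem hlc_mem (hCURV : ST_CURV) {D : VD} (hD : D.Good) {L : Submodule ℂ (Fin (D.N + 1) → ℂ)}
    (hL : D.IsBad L) {c : Coef D.N D.dg} (h0 : ∀ s t : ℂ, (s, t) ≠ (0, 0) → pt c s t ≠ 0)
    (hX : ∀ s t : ℂ, pt c s t ∈ D.X)
    (hC : c ∉ {c : Coef D.N D.dg | ∀ s t : ℂ, pt c s t ∈ (L : Set (Fin (D.N + 1) → ℂ))}) :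
    c ∈ D.H := by
  have hpos : 1 ≤ D.dg := by
    have h1 := hD.kpos
    have h2 := hD.fd.two_le
    exact Nat.mul_pos h1 (by omega)
  have hm : Mor D.dg (cpol c) :=
    ⟨cpol_natDegree c, fun s t hst => by rw [hevv_cpol]; exact h0 s t hst⟩
  have hC' : ∃ s t : ℂ, hevv D.dg (cpol c) s t ∉ L := by
    by_contra hn
    push Not at hn
    apply hC
    intro s t
    have := hn s t
    rw [hevv_cpol] at this
    exact this
  obtain ⟨-, b, p, q, hHP, heq⟩ := hCURV D hD L hL D.dg (cpol c) hpos le_rfl hm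
    (fun s t => by rw [hevv_cpol]; exact hX s t) hC'
  refine ⟨b, p, q, hHP, fun s t => ?_⟩
  rw [← heq s t, hevv_cpol]

theorem st_HLC (hCURV : ST_CURV) (hHCUR : ST_HCUR) (hRES : ST_RES) (hBAD : ST_BAD) :
    ST_HLC := by
  intro D hD
  obtain ⟨L, hL⟩ := hBAD D hD
  have hCcl : ZClosed {c : Coef D.N D.dg | ∀ s t : ℂ, pt c s t ∈
      (L : Set (Fin (D.N + 1) → ℂ))} := hlc_closed_all (zclosed_submodule L)
  constructor
  · refine ⟨{c : Coef D.N D.dg | ∀ s t : ℂ, pt c s t ∈ D.X},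
      {c : Coef D.N D.dg | ∃ s t : ℂ, (s, t) ≠ (0, 0) ∧ pt c s t = 0} ∪
        {c : Coef D.N D.dg | ∀ s t : ℂ, pt c s t ∈ (L : Set (Fin (D.N + 1) → ℂ))},
      hlc_closed_all hD.xd.pm.closed, zclosed_union (hRES D.N D.dg) hCcl, ?_⟩
    ext c
    constructor
    · intro hc
      have hcur := (hHCUR D hD c hc).1
      refine ⟨hcur.mem, ?_⟩
      rintro (⟨s, t, hst, h0⟩ | h1)
      · exact hcur.ne_zero s t hst h0
      · exact hlc_notMem hD hL hc h1
    · rintro ⟨hA, hB⟩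
      rw [Set.mem_union, not_or] at hB
      exact hlc_mem hCURV hD hL (fun s t hst h0 => hB.1 ⟨s, t, hst, h0⟩) hA hB.2
  · refine ⟨_, hCcl, fun c hc => ⟨fun h => hlc_notMem hD hL h, fun h => ?_⟩⟩
    exact hlc_mem hCURV hD hL hc.ne_zero hc.mem h

end Pool.Agent.Helper87.VM
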